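import Pool.Agent.Helper95.KZ.Goals

set_option autoImplicit false

namespace Pool.Agent.Helper69.KZ

open Pool.Agent.Helper52.Wq2 Pool.Agent.Helper95.KZ

universe u

/-- Finite connected subsets. -/
theorem fin_path {V : Type u} {G : SimpleGraph V} {W : Set V} (hW : Conn G W) {x y : V}
    (hx : x ∈ W) (hy : y ∈ W) : ∃ F ⊆ W, F.Finite ∧ Conn G F ∧ x ∈ F ∧ y ∈ F := by
  have h := hW.2 {z | z ∈ W ∧ ∃ F ⊆ W, F.Finite ∧ Conn G F ∧ x ∈ F ∧ z ∈ F} (fun z hz => hz.1)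
    ⟨x, hx, {x}, by rintro z rfl; exact hx, Set.finite_singleton x, conn_singleton G x, rfl, rfl⟩ (by
      rintro u ⟨_, F, hF1, hF2, hF3, hF4, hF5⟩ v hv huv
      refine ⟨hv, F ∪ {v}, ?_, hF2.union (Set.finite_singleton v), ?_, Or.inl hF4, Or.inr rfl⟩
      · rintro z (hz | rfl)
        · exact hF1 hz
        · exact hv
      · exact hF3.union (conn_singleton G v) hF5 rfl huv)
  exact (h hy).2

/-- Two connected sets with a common point. -/
theorem conn_inter {V : Type u} {G : SimpleGraph V} {s t : Set V} (hs : Conn G s) (ht : Conn G t)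
    {z : V} (hz : z ∈ s) (hz' : z ∈ t) : Conn G (s ∪ t) := by
  refine ⟨⟨z, Or.inl hz⟩, ?_⟩
  intro A hA hne hcl
  have h1 : (A ∩ s).Nonempty → s ⊆ A := by
    intro hn x hx
    exact (hs.2 (A ∩ s) Set.inter_subset_right hn
      (fun y hy w hw hyw => ⟨hcl y hy.1 w (Or.inl hw) hyw, hw⟩) hx).1
  have h2 : (A ∩ t).Nonempty → t ⊆ A := by
    intro hn x hx
    exact (ht.2 (A ∩ t) Set.inter_subset_right hn
      (fun y hy w hw hyw => ⟨hcl y hy.1 w (Or.inr hw) hyw, hw⟩) hx).1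
  obtain ⟨x, hx⟩ := hne
  rcases hA hx with hx' | hx'
  · have h3 := h1 ⟨x, hx, hx'⟩
    have h4 := h2 ⟨z, h3 hz, hz'⟩
    rintro y (hy | hy)
    · exact h3 hy
    · exact h4 hy
  · have h3 := h2 ⟨x, hx, hx'⟩
    have h4 := h1 ⟨z, h3 hz', hz⟩
    rintro y (hy | hy)
    · exact h4 hy
    · exact h3 hy

theorem conn_cay {Γ : Type u} [Group Γ] {S : Set Γ} (hS : IsGen S) : Conn (cay S) Set.univ := by
  refine ⟨⟨1, trivial⟩, ?_⟩
  intro A _ hne hcl
  obtain ⟨a, ha⟩ := hne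
  have key : ∀ x ∈ Subgroup.closure S, ∀ g, g * x ∈ A ↔ g ∈ A := by
    intro x hx
    induction hx using Subgroup.closure_induction with
    | mem x hx =>
      intro g
      have h1 := cay_adj_mul hS g hx
      exact ⟨fun hg => hcl _ hg g trivial h1.symm, fun hg => hcl g hg _ trivial h1⟩
    | one => intro g; rw [mul_one]
    | mul x y _ _ hx hy => intro g; rw [← mul_assoc, hy, hx]
    | inv x hx ih =>
      intro g
      have := ih (g * x⁻¹)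
      rw [inv_mul_cancel_right] at this
      exact this.symm
  intro y _
  have := (key (a⁻¹ * y) (by rw [hS.1]; trivial) a).2 ha
  rwa [mul_inv_cancel_left] at this

theorem adj_mul {Γ : Type u} [Group Γ] {S : Set Γ} (hS : IsGen S) (k : Γ) {x y : Γ}
    (h : (cay S).Adj x y) : (cay S).Adj (k * x) (k * y) := by
  rw [cay_adj hS] at h ⊢
  rwa [mul_inv_rev, mul_assoc, inv_mul_cancel_left]

/-- The sets reachable from `R` outside of `l` meet `k l`. -/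
theorem meet {Γ : Type u} [Group Γ] {S : Set Γ} (hS : IsGen S) {k : Γ} {o : ℕ} (ho : 0 < o)
    (hko : k ^ o = 1) {l R : Set Γ} (hl : l.Nonempty) (hkl : ∀ x ∈ l, k * x ∉ l)
    (hR : Conn (cay S) R) (hRl : Disjoint R l) (hkR : ∀ x ∈ R, k⁻¹ * x ∈ R) :
    ∃ W : Set Γ, Conn (cay S) W ∧ Disjoint W l ∧ (W ∩ R).Nonempty ∧ ∃ x ∈ l, k * x ∈ W := by
  by_contra hcon
  have hcon' : ∀ W : Set Γ, Conn (cay S) W → Disjoint W l → (W ∩ R).Nonempty →
      ∀ x ∈ l, k * x ∉ W := by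
    intro W h1 h2 h3 x hx h4
    exact hcon ⟨W, h1, h2, h3, x, hx, h4⟩
  obtain ⟨U, hU⟩ : ∃ U : Set Γ, ∀ x, x ∈ U ↔ ∃ W : Set Γ, Conn (cay S) W ∧ Disjoint W l ∧
      (W ∩ R).Nonempty ∧ x ∈ W := ⟨{x | _}, fun x => Iff.rfl⟩
  have hUl : ∀ x ∈ U, x ∉ l := by
    intro x hx
    obtain ⟨W, _, h2, _, h4⟩ := (hU x).1 hx
    exact Set.disjoint_left.1 h2 h4
  have hinv : ∀ x ∈ U, k⁻¹ * x ∈ U := by
    intro x hx
    obtain ⟨W, h1, h2, ⟨r, hr1, hr2⟩, h4⟩ := (hU x).1 hx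
    refine (hU _).2 ⟨(fun y => k⁻¹ * y) '' W, h1.image _ (fun u _ v _ huv =>
      Or.inr (adj_mul hS k⁻¹ huv)), ?_, ⟨k⁻¹ * r, ⟨r, hr1, rfl⟩, hkR r hr2⟩, ⟨x, h4, rfl⟩⟩
    rw [Set.disjoint_left]
    rintro _ ⟨y, hy, rfl⟩ hyl
    refine hcon' W h1 h2 ⟨r, hr1, hr2⟩ (k⁻¹ * y) hyl ?_
    rw [mul_inv_cancel_left]
    exact hy
  have hinv2 : ∀ n : ℕ, ∀ x ∈ U, (k⁻¹) ^ n * x ∈ U := by
    intro n
    induction n with
    | zero => intro x hx; rwa [pow_zero, one_mul]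
    | succ n ih => intro x hx; rw [pow_succ', mul_assoc]; exact hinv _ (ih x hx)
  have hinv3 : ∀ x ∈ U, k * x ∈ U := by
    intro x hx
    have h1 := hinv2 (o - 1) x hx
    have h2 : (k⁻¹) ^ (o - 1) = k := by
      have h3 : (k⁻¹) ^ (o - 1) * k⁻¹ = 1 := by
        rw [← pow_succ, Nat.sub_add_cancel ho, inv_pow, hko, inv_one]
      exact eq_of_mul_inv_eq_one h3
    rwa [h2] at h1
  have hstep : ∀ x ∈ U, ∀ y, (cay S).Adj x y → y ∉ l → y ∈ U := by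
    intro x hx y hxy hy
    obtain ⟨W, h1, h2, ⟨r, hr1, hr2⟩, h4⟩ := (hU x).1 hx
    refine (hU _).2 ⟨W ∪ {y}, h1.union (conn_singleton _ y) h4 rfl hxy, ?_,
      ⟨r, Or.inl hr1, hr2⟩, Or.inr rfl⟩
    rw [Set.disjoint_left]
    rintro z (hz | rfl) hzl
    · exact Set.disjoint_left.1 h2 hz hzl
    · exact hy hzl
  have hall : Set.univ ⊆ U := by
    refine (conn_cay hS).2 U (Set.subset_univ _) ?_ ?_
    · obtain ⟨r, hr⟩ := hR.1
      exact ⟨r, (hU r).2 ⟨R, hR, hRl, ⟨r, hr, hr⟩, hr⟩⟩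
    · intro x hx y _ hxy
      by_cases hy : y ∈ l
      · have h1 : k⁻¹ * y ∉ l := by
          intro h2
          have := hkl _ h2
          rw [mul_inv_cancel_left] at this
          exact this hy
        have h2 := hstep _ (hinv x hx) _ (adj_mul hS k⁻¹ hxy) h1
        have h3 := hinv3 _ h2
        rwa [mul_inv_cancel_left] at h3
      · exact hstep x hx y hxy hy
  obtain ⟨y, hy⟩ := hl
  exact hUl y (hall trivial) hy

/-- **JMP.** -/
theorem jmp (hSlc : SlcStmt.{u}) : JmpStmt.{u} := by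
  intro Γ _ S a b k B hP o ho hko l hl hkl L hL hLl c
  obtain ⟨c', hc', hc0, hcL⟩ : ∃ c' : ℤ, c ≤ c' ∧ 0 < c' ∧ L < c' :=
    ⟨max c (L + 1), le_max_left _ _, by omega, by omega⟩
  have hkc : ∀ i j : ℤ, k * (a ^ i * b ^ j) = a ^ i * b ^ j * k := by
    intro i j
    have h1 : Commute k a := hP.ak.symm
    have h2 : Commute k b := hP.bk.symm
    exact ((h1.zpow_right i).mul_right (h2.zpow_right j)).eq
  have hki : k⁻¹ = k ^ (o - 1) := by
    have h3 : k ^ (o - 1) * k = 1 := by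
      rw [← pow_succ, Nat.sub_add_cancel ho, hko]
    exact (eq_inv_of_mul_eq_one_left h3).symm
  have hkS : ∀ P : ℤ → Prop, ∀ x ∈ Sl a b B P, k⁻¹ * x ∈ Sl a b B P := by
    intro P x hx
    have h1 : ∀ x ∈ Sl a b B P, k * x ∈ Sl a b B P := by
      rintro _ ⟨i, j, hj, y, hy, rfl⟩
      refine ⟨i, j, hj, k * y, hP.kB y hy, ?_⟩
      rw [← mul_assoc, hkc, mul_assoc]
    have h2 : ∀ n : ℕ, ∀ x ∈ Sl a b B P, k ^ n * x ∈ Sl a b B P := by
      intro n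
      induction n with
      | zero => intro x hx; rwa [pow_zero, one_mul]
      | succ n ih => intro x hx; rw [pow_succ', mul_assoc]; exact h1 _ (ih x hx)
    rw [hki]
    exact h2 _ x hx
  have hdis : ∀ P : ℤ → Prop, (∀ j, P j → L < |j|) → Disjoint (Sl a b B P) l := by
    intro P hPj
    rw [Set.disjoint_left]
    rintro _ ⟨i, j, hj, y, hy, rfl⟩ hxl
    have h1 := hLl i j y hy hxl
    have h2 := hPj j hj
    omega
  have hup := hSlc Γ S a b k B hP (fun j => c' ≤ j) ⟨c', le_refl _⟩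
    (fun i j l h1 _ h3 _ => le_trans h1 h3)
  have hdn := hSlc Γ S a b k B hP (fun j => j ≤ -c') ⟨-c', le_refl _⟩
    (fun i j l _ h2 _ h4 => le_trans h4 h2)
  obtain ⟨W₁, hW1, hW2, ⟨r₁, hr1, hr1'⟩, x₁, hx1, hx1'⟩ := meet hP.gen ho hko hl.1 hkl hup
    (hdis _ (fun j hj => by
      have := le_abs_self j
      beta_reduce at hj
      omega)) (hkS _)
  obtain ⟨W₂, hW3, hW4, ⟨r₂, hr2, hr2'⟩, x₂, hx2, hx2'⟩ := meet hP.gen ho hko hl.1 hkl hdn
    (hdis _ (fun j hj => by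
      have := neg_abs_le j
      beta_reduce at hj
      omega)) (hkS _)
  have hkl1 : Conn (cay S) ((fun y => k * y) '' l) :=
    hl.image _ (fun u _ v _ huv => Or.inr (adj_mul hP.gen k huv))
  have hC : Conn (cay S) ((W₁ ∪ (fun y => k * y) '' l) ∪ W₂) :=
    conn_inter (conn_inter hW1 hkl1 hx1' ⟨x₁, hx1, rfl⟩) hW3 (Or.inr ⟨x₂, hx2, rfl⟩) hx2'
  obtain ⟨F, hF1, hF2, hF3, hF4, hF5⟩ := fin_path hC (Or.inl (Or.inl hr1)) (Or.inr hr2)
  refine ⟨F, hF2, hF3, ?_, ⟨r₁, hF4, ?_⟩, ⟨r₂, hF5, ?_⟩⟩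
  · rw [Set.disjoint_left]
    intro x hx hxl
    rcases hF1 hx with (h1 | ⟨y, hy, rfl⟩) | h1
    · exact Set.disjoint_left.1 hW2 h1 hxl
    · exact hkl y hy hxl
    · exact Set.disjoint_left.1 hW4 h1 hxl
  · obtain ⟨i, j, hj, y, hy, rfl⟩ := hr1'
    exact ⟨i, j, le_trans hc' hj, y, hy, rfl⟩
  · obtain ⟨i, j, hj, y, hy, rfl⟩ := hr2'
    exact ⟨i, j, le_trans hj (neg_le_neg hc'), y, hy, rfl⟩

end Pool.Agent.Helper69.KZ
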